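import Mathlib

noncomputable section

namespace Pool.Agent.Results.MP_045576_al.IsoUndecidable

section Lie

variable (k : Type*) [Field k] (V : Type*) [AddCommGroup V] [Module k V]

/-- The underlying module `k × V` of the semidirect product of the abelian Lie algebra `V`
by the one-dimensional Lie algebra acting through the endomorphism `D`. -/
@[ext] structure Semi (D : V →ₗ[k] V) where
  s : k
  v : V

variable {k V}

namespace Semi

variable {D : V →ₗ[k] V}

instance : Zero (Semi k V D) := ⟨⟨0, 0⟩⟩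
instance : Add (Semi k V D) := ⟨fun a b => ⟨a.s + b.s, a.v + b.v⟩⟩
instance : Neg (Semi k V D) := ⟨fun a => ⟨-a.s, -a.v⟩⟩
instance : Sub (Semi k V D) := ⟨fun a b => ⟨a.s - b.s, a.v - b.v⟩⟩
instance : SMul k (Semi k V D) := ⟨fun c a => ⟨c * a.s, c • a.v⟩⟩
instance : SMul ℕ (Semi k V D) := ⟨fun c a => ⟨c • a.s, c • a.v⟩⟩
instance : SMul ℤ (Semi k V D) := ⟨fun c a => ⟨c • a.s, c • a.v⟩⟩

@[simp] lemma zero_s : (0 : Semi k V D).s = 0 := rfl
@[simp] lemma zero_v : (0 : Semi k V D).v = 0 := rfl
@[simp] lemma add_s (a b : Semi k V D) : (a + b).s = a.s + b.s := rfl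
@[simp] lemma add_v (a b : Semi k V D) : (a + b).v = a.v + b.v := rfl
@[simp] lemma neg_s (a : Semi k V D) : (-a).s = -a.s := rfl
@[simp] lemma neg_v (a : Semi k V D) : (-a).v = -a.v := rfl
@[simp] lemma sub_s (a b : Semi k V D) : (a - b).s = a.s - b.s := rfl
@[simp] lemma sub_v (a b : Semi k V D) : (a - b).v = a.v - b.v := rfl
@[simp] lemma smul_s (c : k) (a : Semi k V D) : (c • a).s = c * a.s := rfl
@[simp] lemma smul_v (c : k) (a : Semi k V D) : (c • a).v = c • a.v := rfl

lemma toProd_injective : Function.Injective (fun a : Semi k V D => (a.s, a.v)) := by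
  intro a b h
  simp only [Prod.mk.injEq] at h
  exact Semi.ext h.1 h.2

instance : AddCommGroup (Semi k V D) :=
  toProd_injective.addCommGroup _ rfl (fun _ _ => rfl) (fun _ => rfl) (fun _ _ => rfl)
    (fun _ _ => rfl) (fun _ _ => rfl)

instance : Module k (Semi k V D) :=
  toProd_injective.module k ⟨⟨fun a : Semi k V D => (a.s, a.v), rfl⟩, fun _ _ => rfl⟩
    (fun _ _ => rfl)

instance : Bracket (Semi k V D) (Semi k V D) := ⟨fun a b => ⟨0, a.s • D b.v - b.s • D a.v⟩⟩

@[simp] lemma bracket_s (a b : Semi k V D) : ⁅a, b⁆.s = 0 := rfl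
@[simp] lemma bracket_v (a b : Semi k V D) : ⁅a, b⁆.v = a.s • D b.v - b.s • D a.v := rfl

instance : LieRing (Semi k V D) where
  add_lie a b c := by
    ext
    · simp
    · simp only [bracket_v, add_s, add_v, map_add, smul_add, add_smul]; abel
  lie_add a b c := by
    ext
    · simp
    · simp only [bracket_v, add_s, add_v, map_add, smul_add, add_smul]; abel
  lie_self a := by
    ext
    · simp
    · simp
  leibniz_lie a b c := by
    ext
    · simp
    · simp only [bracket_v, bracket_s, add_v, map_sub, map_smul, smul_sub, zero_smul, sub_zero,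
        zero_sub]
      rw [smul_comm a.s b.s, smul_comm a.s c.s, smul_comm b.s c.s]
      abel

instance : LieAlgebra k (Semi k V D) where
  lie_smul c a b := by
    ext
    · simp
    · simp only [bracket_v, smul_s, smul_v, map_smul, smul_sub, mul_smul]
      rw [smul_comm a.s c]

end Semi

section Quot

variable {k : Type*} [Field k] {X : Type*}

/-- The Lie algebra with generators `X` and the single defining relation `r = 0`. -/
abbrev OneRel (r : FreeLieAlgebra k X) : Type _ :=
  FreeLieAlgebra k X ⧸ LieSubmodule.lieSpan k (FreeLieAlgebra k X) {r}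

/-- The quotient map. -/
def qmk (r : FreeLieAlgebra k X) : FreeLieAlgebra k X →ₗ⁅k⁆ OneRel r :=
  { (LieSubmodule.lieSpan k (FreeLieAlgebra k X) {r}).toSubmodule.mkQ with
    map_lie' := fun {x y} => LieSubmodule.Quotient.mk_bracket
      (I := LieSubmodule.lieSpan k (FreeLieAlgebra k X) {r}) x y }

lemma qmk_surjective (r : FreeLieAlgebra k X) : Function.Surjective (qmk r) :=
  Submodule.mkQ_surjective _

lemma qmk_rel (r : FreeLieAlgebra k X) : qmk r r = 0 := by
  have : r ∈ LieSubmodule.lieSpan k (FreeLieAlgebra k X) {r} :=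
    LieSubmodule.subset_lieSpan (Set.mem_singleton r)
  exact (Submodule.Quotient.mk_eq_zero _).mpr this

variable {M : Type*} [LieRing M] [LieAlgebra k M]

lemma ker_le (r : FreeLieAlgebra k X) (φ : FreeLieAlgebra k X →ₗ⁅k⁆ M) (h : φ r = 0) :
    (LieSubmodule.lieSpan k (FreeLieAlgebra k X) {r}).toSubmodule ≤
      LinearMap.ker (φ : FreeLieAlgebra k X →ₗ[k] M) := by
  have h1 : LieSubmodule.lieSpan k (FreeLieAlgebra k X) {r} ≤ φ.ker := by
    rw [LieSubmodule.lieSpan_le]
    intro x hx
    rw [Set.mem_singleton_iff] at hx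
    subst hx
    simpa using h
  intro x hx
  have := h1 hx
  simpa using this

/-- A homomorphism killing the relator factors through the quotient. -/
def liftR (r : FreeLieAlgebra k X) (φ : FreeLieAlgebra k X →ₗ⁅k⁆ M) (h : φ r = 0) :
    OneRel r →ₗ⁅k⁆ M :=
  { Submodule.liftQ _ (φ : FreeLieAlgebra k X →ₗ[k] M) (ker_le r φ h) with
    map_lie' := by
      intro x y
      obtain ⟨x, rfl⟩ := qmk_surjective r x
      obtain ⟨y, rfl⟩ := qmk_surjective r y
      rw [← LieHom.map_lie]
      exact LieHom.map_lie φ x y }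

@[simp] lemma liftR_qmk (r : FreeLieAlgebra k X) (φ : FreeLieAlgebra k X →ₗ⁅k⁆ M) (h : φ r = 0)
    (x : FreeLieAlgebra k X) : liftR r φ h (qmk r x) = φ x := rfl

lemma mem_of_gen (S : LieSubalgebra k M) (φ : FreeLieAlgebra k X →ₗ⁅k⁆ M)
    (h : ∀ x, φ (FreeLieAlgebra.of k x) ∈ S) (u : FreeLieAlgebra k X) : φ u ∈ S := by
  have : φ = S.incl.comp (FreeLieAlgebra.lift k (fun x => (⟨_, h x⟩ : S))) := by
    apply FreeLieAlgebra.hom_ext
    intro x
    simp
  rw [this]
  simp

/-- iterated bracket `[x,[x,...,[x,y]]]` with `n` letters `x` -/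
def adPow {L : Type*} [LieRing L] (x y : L) : ℕ → L
  | 0 => y
  | n + 1 => ⁅x, adPow x y n⁆

lemma map_adPow {L L' : Type*} [LieRing L] [LieAlgebra k L] [LieRing L'] [LieAlgebra k L']
    (φ : L →ₗ⁅k⁆ L') (x y : L) (n : ℕ) : φ (adPow x y n) = adPow (φ x) (φ y) n := by
  induction n with
  | zero => rfl
  | succ n ih => simp [adPow, ih]

lemma adPow_smul {L : Type*} [LieRing L] [LieAlgebra k L] (c : k) (x y : L) (n : ℕ) :
    adPow (c • x) y n = c ^ n • adPow x y n := by
  induction n with
  | zero => simp [adPow]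
  | succ n ih => simp [adPow, ih, smul_smul, pow_succ, mul_comm]

/-- the relator `ad(x)^n (y) - a y` on two generators -/
def powRel (n : ℕ) (a : k) : FreeLieAlgebra k (Fin 2) :=
  adPow (FreeLieAlgebra.of k 0) (FreeLieAlgebra.of k 1) n - a • FreeLieAlgebra.of k 1

lemma map_powRel (n : ℕ) (a : k) (φ : FreeLieAlgebra k (Fin 2) →ₗ⁅k⁆ M) :
    φ (powRel n a) = adPow (φ (FreeLieAlgebra.of k 0)) (φ (FreeLieAlgebra.of k 1)) n
      - a • φ (FreeLieAlgebra.of k 1) := by
  simp [powRel, map_adPow]

/-- rescaling of the first generator -/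
def scale (c : k) : FreeLieAlgebra k (Fin 2) →ₗ⁅k⁆ FreeLieAlgebra k (Fin 2) :=
  FreeLieAlgebra.lift k ![c • FreeLieAlgebra.of k 0, FreeLieAlgebra.of k 1]

@[simp] lemma scale_zero (c : k) : scale c (FreeLieAlgebra.of k 0) = c • FreeLieAlgebra.of k 0 := by
  simp [scale]

@[simp] lemma scale_one (c : k) : scale c (FreeLieAlgebra.of k 1) = FreeLieAlgebra.of k 1 := by
  simp [scale]

lemma scale_powRel (c a b : k) (n : ℕ) (h : c ^ n * b = a) :
    scale c (powRel n a) = c ^ n • powRel n b := by
  rw [map_powRel, scale_zero, scale_one, adPow_smul, powRel, smul_sub, smul_smul, h]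

lemma quot_hom_ext (r : FreeLieAlgebra k X) (f g : OneRel r →ₗ⁅k⁆ M)
    (h : ∀ x, f (qmk r (FreeLieAlgebra.of k x)) = g (qmk r (FreeLieAlgebra.of k x))) : f = g := by
  have h1 : f.comp (qmk r) = g.comp (qmk r) := FreeLieAlgebra.hom_ext (fun x => h x)
  ext x
  obtain ⟨x, rfl⟩ := qmk_surjective r x
  exact LieHom.congr_fun h1 x

theorem iso_of_pow (n : ℕ) (a c : k) (ha : a ≠ 0) (h : c ^ n = a) :
    Nonempty (OneRel (powRel n a) ≃ₗ⁅k⁆ OneRel (powRel n (1 : k))) := by
  rcases Nat.eq_zero_or_pos n with hn | hn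
  · subst hn
    simp only [pow_zero] at h
    subst h
    exact ⟨LieEquiv.refl⟩
  have hc : c ≠ 0 := by
    rintro rfl
    rw [zero_pow hn.ne'] at h
    exact ha h.symm
  have h1 : ((qmk (powRel n (1:k))).comp (scale c)) (powRel n a) = 0 := by
    rw [LieHom.comp_apply, scale_powRel c a 1 n (by simpa using h), map_smul, qmk_rel, smul_zero]
  have h2 : ((qmk (powRel n a)).comp (scale c⁻¹)) (powRel n (1:k)) = 0 := by
    rw [LieHom.comp_apply, scale_powRel c⁻¹ 1 a n (by rw [inv_pow, h, inv_mul_cancel₀ ha]),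
      map_smul, qmk_rel, smul_zero]
  let f := liftR (powRel n a) _ h1
  let g := liftR (powRel n (1:k)) _ h2
  have hgf : g.comp f = LieHom.id := by
    apply quot_hom_ext
    intro x
    fin_cases x
    · simp [f, g, smul_smul, hc]
    · simp [f, g]
  have hfg : f.comp g = LieHom.id := by
    apply quot_hom_ext
    intro x
    fin_cases x
    · simp [f, g, smul_smul, hc]
    · simp [f, g]
  exact ⟨{ f with
    invFun := g
    left_inv := fun x => LieHom.congr_fun hgf x
    right_inv := fun x => LieHom.congr_fun hfg x }⟩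

lemma semi_adPow {V : Type*} [AddCommGroup V] [Module k V] {D : V →ₗ[k] V} (X : Semi k V D)
    (v : V) (n : ℕ) :
    adPow X ⟨0, v⟩ n = ⟨0, X.s ^ n • (D ^ n) v⟩ := by
  induction n with
  | zero => simp [adPow]
  | succ n ih =>
    rw [adPow, ih]
    ext
    · simp
    · simp [smul_smul, pow_succ']

theorem pow_of_semi {V : Type*} [AddCommGroup V] [Module k V] (D : V →ₗ[k] V) (n : ℕ)
    (a : k) (hD : ∀ v, (D ^ (n + 1)) v = a • v) (v₀ : V) (hv₀ : v₀ ≠ 0)
    (ψ : FreeLieAlgebra k (Fin 2) →ₗ⁅k⁆ Semi k V D)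
    (hψ : ψ (powRel (n + 1) (1:k)) = 0) (hx : ∃ u, ψ u = ⟨1, 0⟩) (hy : ∃ u, ψ u = ⟨0, v₀⟩) :
    ∃ c : k, c ^ (n + 1) = a := by
  set X := ψ (FreeLieAlgebra.of k 0) with hX
  set Y := ψ (FreeLieAlgebra.of k 1) with hY
  have hrel : adPow X Y (n + 1) = Y := by
    rw [map_powRel, one_smul, sub_eq_zero] at hψ
    exact hψ
  have hYs : Y.s = 0 := by
    rw [← hrel, adPow]
    rfl
  have hY' : Y = ⟨0, Y.v⟩ := by
    ext
    · exact hYs
    · rfl
  have hYv : (X.s ^ (n + 1) * a) • Y.v = Y.v := by
    have h1 := semi_adPow X Y.v (n + 1)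
    rw [← hY', hrel, hD, smul_smul] at h1
    have := congrArg Semi.v h1
    exact this.symm
  by_cases hYz : Y.v = 0
  · exfalso
    let S : LieSubalgebra k (Semi k V D) :=
      { Submodule.span k {X} with
        lie_mem' := by
          intro p q hp hq
          change p ∈ Submodule.span k {X} at hp
          change q ∈ Submodule.span k {X} at hq
          change ⁅p, q⁆ ∈ Submodule.span k {X}
          rw [Submodule.mem_span_singleton] at hp hq
          obtain ⟨c, rfl⟩ := hp
          obtain ⟨d, rfl⟩ := hq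
          simp }
    have hS : ∀ u, ψ u ∈ S := by
      apply mem_of_gen S ψ
      intro x
      fin_cases x
      · exact Submodule.mem_span_singleton_self X
      · change Y ∈ Submodule.span k {X}
        rw [hY', hYz]
        exact Submodule.zero_mem _
    obtain ⟨u, hu⟩ := hx
    obtain ⟨w, hw⟩ := hy
    have h1 := hS u
    have h2 := hS w
    change ψ u ∈ Submodule.span k {X} at h1
    change ψ w ∈ Submodule.span k {X} at h2
    rw [hu, Submodule.mem_span_singleton] at h1
    rw [hw, Submodule.mem_span_singleton] at h2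
    obtain ⟨c, hc⟩ := h1
    obtain ⟨d, hd⟩ := h2
    have hc1 : c * X.s = 1 := congrArg Semi.s hc
    have hd1 : d * X.s = 0 := congrArg Semi.s hd
    have hd2 : d • X.v = v₀ := congrArg Semi.v hd
    have hXs : X.s ≠ 0 := by
      intro h
      rw [h, mul_zero] at hc1
      exact zero_ne_one hc1
    have hd0 : d = 0 := by
      rcases mul_eq_zero.mp hd1 with h | h
      · exact h
      · exact absurd h hXs
    rw [hd0, zero_smul] at hd2
    exact hv₀ hd2.symm
  · have h1 : (X.s ^ (n + 1) * a - 1) • Y.v = 0 := by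
      rw [sub_smul, one_smul, hYv, sub_self]
    rcases smul_eq_zero.mp h1 with h | h
    · refine ⟨X.s⁻¹, ?_⟩
      have h2 : X.s ^ (n + 1) * a = 1 := sub_eq_zero.mp h
      rw [inv_pow]
      exact inv_eq_of_mul_eq_one_right h2
    · exact absurd h hYz

theorem pow_of_iso (n : ℕ) (a : k) 
    (e : OneRel (powRel (n + 1) a) ≃ₗ⁅k⁆ OneRel (powRel (n + 1) (1 : k))) :
    ∃ c : k, c ^ (n + 1) = a := by
  classical
  let f : Polynomial k := Polynomial.X ^ (n + 1) - Polynomial.C a
  have hf : f.degree ≠ 0 := by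
    have : f.degree = ((n + 1 : ℕ) : WithBot ℕ) := Polynomial.degree_X_pow_sub_C (Nat.succ_pos n) a
    rw [this]
    simp
    exact_mod_cast Nat.succ_ne_zero n
  have : Nontrivial (AdjoinRoot f) := AdjoinRoot.nontrivial f hf
  let D : AdjoinRoot f →ₗ[k] AdjoinRoot f := LinearMap.mulLeft k (AdjoinRoot.root f)
  have hroot : (AdjoinRoot.root f) ^ (n + 1) = algebraMap k (AdjoinRoot f) a := by
    have h := AdjoinRoot.eval₂_root f
    simp only [f, Polynomial.eval₂_sub, Polynomial.eval₂_pow, Polynomial.eval₂_X,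
      Polynomial.eval₂_C] at h
    exact sub_eq_zero.mp h
  have hD : ∀ v, (D ^ (n + 1)) v = a • v := by
    intro v
    have h1 : D ^ (n + 1) = LinearMap.mulLeft k ((AdjoinRoot.root f) ^ (n + 1)) := by
      simp [D, LinearMap.pow_mulLeft]
    rw [h1, LinearMap.mulLeft_apply, hroot, Algebra.smul_def]
  let π₀ : FreeLieAlgebra k (Fin 2) →ₗ⁅k⁆ Semi k (AdjoinRoot f) D :=
    FreeLieAlgebra.lift k ![⟨1, 0⟩, ⟨0, 1⟩]
  have hπ0 : π₀ (FreeLieAlgebra.of k 0) = ⟨1, 0⟩ := by simp [π₀]
  have hπ1 : π₀ (FreeLieAlgebra.of k 1) = ⟨0, 1⟩ := by simp [π₀]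
  have hπ : π₀ (powRel (n + 1) a) = 0 := by
    rw [map_powRel, hπ0, hπ1, semi_adPow, hD]
    ext <;> simp
  let π := liftR _ π₀ hπ
  let ψ : FreeLieAlgebra k (Fin 2) →ₗ⁅k⁆ Semi k (AdjoinRoot f) D :=
    (π.comp (e.symm : OneRel (powRel (n + 1) (1 : k)) →ₗ⁅k⁆ OneRel (powRel (n + 1) a))).comp
      (qmk (powRel (n + 1) (1 : k)))
  have hsurj : ∀ z : OneRel (powRel (n + 1) a), ∃ u, ψ u = π z := by
    intro z
    obtain ⟨u, hu⟩ := qmk_surjective (powRel (n + 1) (1 : k)) (e z)
    refine ⟨u, ?_⟩
    simp [ψ, hu]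
  apply pow_of_semi D n a hD 1 one_ne_zero ψ
  · simp [ψ, qmk_rel]
  · obtain ⟨u, hu⟩ := hsurj (qmk _ (FreeLieAlgebra.of k 0))
    exact ⟨u, by rw [hu]; simp [π, hπ0]⟩
  · obtain ⟨u, hu⟩ := hsurj (qmk _ (FreeLieAlgebra.of k 1))
    exact ⟨u, by rw [hu]; simp [π, hπ1]⟩

end Quot

end Lie

section Sqrt

open Polynomial

/-- the field of algebraic numbers inside `ℂ` -/
abbrev QB : IntermediateField ℚ ℂ := algebraicClosure ℚ ℂ

instance : Algebra.IsAlgebraic ℚ QB := algebraicClosure.isAlgebraic ℚ ℂ

instance : IsAlgClosure ℚ QB := algebraicClosure.isAlgClosure ℚ ℂ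

instance : Normal ℚ QB := IsAlgClosure.normal ℚ QB

lemma sqrt_mem (n : ℕ) : ((Real.sqrt n : ℝ) : ℂ) ∈ QB := by
  rw [mem_algebraicClosure_iff]
  refine IsAlgebraic.of_pow (n := 2) (by norm_num) ?_
  have : (((Real.sqrt n : ℝ) : ℂ)) ^ 2 = algebraMap ℚ ℂ (n : ℚ) := by
    rw [← Complex.ofReal_pow, Real.sq_sqrt (Nat.cast_nonneg n)]
    simp
  rw [this]
  exact isAlgebraic_algebraMap _

/-- the nonnegative square root of `n` as an algebraic number -/
def rt (n : ℕ) : QB := ⟨((Real.sqrt n : ℝ) : ℂ), sqrt_mem n⟩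

lemma rt_sq (n : ℕ) : rt n ^ 2 = (n : QB) := by
  apply Subtype.ext
  have : (((Real.sqrt n : ℝ) : ℂ)) ^ 2 = (n : ℂ) := by
    rw [← Complex.ofReal_pow, Real.sq_sqrt (Nat.cast_nonneg n)]
    simp
  simpa [rt] using this

lemma rt_of_sq (a : ℕ) : rt (a * a) = (a : QB) := by
  apply Subtype.ext
  simp [rt, Real.sqrt_mul_self]

lemma rt_ne_zero {n : ℕ} (h : 0 < n) : rt n ≠ 0 := by
  intro h0
  have := rt_sq n
  rw [h0] at this
  have h1 : (n : QB) = 0 := by rw [← this]; simp
  rw [Nat.cast_eq_zero] at h1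
  omega

lemma exists_flip (M : ℕ) (hM : ¬ IsSquare M) : ∃ σ : QB ≃ₐ[ℚ] QB, σ (rt M) = - rt M := by
  have hirr : Irreducible (X ^ 2 - C (M : ℚ) : ℚ[X]) := by
    apply X_pow_sub_C_irreducible_of_prime Nat.prime_two
    intro b hb
    apply hM
    rw [← Rat.isSquare_natCast_iff]
    exact ⟨b, by rw [← hb, sq]⟩
  have hroot : aeval (rt M) (X ^ 2 - C (M : ℚ) : ℚ[X]) = 0 := by
    simp [rt_sq]
  have hmon : (X ^ 2 - C (M : ℚ) : ℚ[X]).Monic := monic_X_pow_sub_C _ (by norm_num)
  have hmin : X ^ 2 - C (M : ℚ) = minpoly ℚ (rt M) := 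
    minpoly.eq_of_irreducible_of_monic hirr hroot hmon
  have halg : IsAlgebraic ℚ (rt M) := Algebra.IsAlgebraic.isAlgebraic _
  apply minpoly.exists_algEquiv_of_root' halg
  rw [← hmin]
  simp [rt_sq]

lemma sq_cases (σ : QB ≃ₐ[ℚ] QB) (n : ℕ) : σ (rt n) = rt n ∨ σ (rt n) = - rt n := by
  apply sq_eq_sq_iff_eq_or_eq_neg.mp
  rw [← map_pow, rt_sq, map_natCast]

variable {ι : Type*}

lemma sum_rt_zero_iff (I : Finset ι) (c : ι → ℤ) (N : ι → ℕ) :
    ∑ i ∈ I, (c i : QB) * rt (N i) = 0 ↔ ∑ i ∈ I, (c i : ℝ) * Real.sqrt (N i) = 0 := by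
  have h1 : ((∑ i ∈ I, (c i : QB) * rt (N i) : QB) : ℂ) =
      ((∑ i ∈ I, (c i : ℝ) * Real.sqrt (N i) : ℝ) : ℂ) := by
    rw [Complex.ofReal_sum]
    have : ((∑ i ∈ I, (c i : QB) * rt (N i) : QB) : ℂ) =
      ∑ i ∈ I, (((c i : QB) * rt (N i) : QB) : ℂ) := by
      exact map_sum (algebraMap QB ℂ) _ _
    rw [this]
    apply Finset.sum_congr rfl
    intro i _
    simp [rt]
  constructor
  · intro h
    rw [h] at h1
    have : ((∑ i ∈ I, (c i : ℝ) * Real.sqrt (N i) : ℝ) : ℂ) = 0 := by rw [← h1]; simp
    exact_mod_cast this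
  · intro h
    rw [h] at h1
    apply Subtype.ext
    rw [h1]
    simp

/-- In a vanishing integer combination of square roots of natural numbers, the terms of each
class modulo squares already sum to zero. -/
theorem class_sum_zero (c : ι → ℤ) (N : ι → ℕ) (j : ℕ) (hj : 0 < j) (hN : ∀ i, 0 < N i) :
    ∀ I : Finset ι, ∑ i ∈ I, (c i : ℝ) * Real.sqrt (N i) = 0 →
      ∑ i ∈ I with IsSquare (j * N i), (c i : ℝ) * Real.sqrt (N i) = 0 := by
  classical
  intro I
  induction I using Finset.strongInduction with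
  | H I ih =>
    intro h
    by_cases hall : ∀ i ∈ I, IsSquare (j * N i)
    · rw [Finset.filter_true_of_mem hall]
      exact h
    push Not at hall
    obtain ⟨l, hl, hlsq⟩ := hall
    obtain ⟨σ, hσ⟩ := exists_flip _ hlsq
    have hjne : Real.sqrt (j : ℝ) ≠ 0 := by
      rw [Real.sqrt_ne_zero']
      exact_mod_cast hj
    have key : ∀ J : Finset ι, (∑ i ∈ J, (c i : ℝ) * Real.sqrt (((j * N i : ℕ) : ℝ)) = 0 ↔
        ∑ i ∈ J, (c i : ℝ) * Real.sqrt (N i) = 0) := by
      intro J
      have : ∑ i ∈ J, (c i : ℝ) * Real.sqrt (((j * N i : ℕ) : ℝ)) =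
          Real.sqrt j * ∑ i ∈ J, (c i : ℝ) * Real.sqrt (N i) := by
        rw [Finset.mul_sum]
        apply Finset.sum_congr rfl
        intro i _
        rw [Nat.cast_mul, Real.sqrt_mul (Nat.cast_nonneg j)]
        ring
      rw [this, mul_eq_zero]
      constructor
      · rintro (h | h)
        · exact absurd h hjne
        · exact h
      · exact Or.inr
    have h1 : ∑ i ∈ I, (c i : QB) * rt (j * N i) = 0 :=
      (sum_rt_zero_iff I c (fun i => j * N i)).mpr ((key I).mpr h)
    have h2 : ∑ i ∈ I, (c i : QB) * σ (rt (j * N i)) = 0 := by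
      have := congrArg σ h1
      rw [map_zero, map_sum] at this
      rw [← this]
      apply Finset.sum_congr rfl
      intro i _
      rw [map_mul, map_intCast]
    let I' := I.filter (fun i => σ (rt (j * N i)) = rt (j * N i))
    have hsub : I' ⊂ I := by
      rw [Finset.filter_ssubset]
      refine ⟨l, hl, ?_⟩
      rw [hσ]
      intro h3
      have h4 : (2 : QB) * rt (j * N l) = 0 := by
        rw [two_mul]
        nth_rewrite 1 [← h3]
        simp
      rcases mul_eq_zero.mp h4 with h5 | h5
      · exact two_ne_zero h5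
      · exact rt_ne_zero (Nat.mul_pos hj (hN l)) h5
    have h3 : ∑ i ∈ I', (c i : QB) * rt (j * N i) = 0 := by
      have h4 : ∑ i ∈ I, ((c i : QB) * rt (j * N i) + (c i : QB) * σ (rt (j * N i))) = 0 := by
        rw [Finset.sum_add_distrib, h1, h2, add_zero]
      have h5 : ∑ i ∈ I, ((c i : QB) * rt (j * N i) + (c i : QB) * σ (rt (j * N i))) =
          ∑ i ∈ I, if σ (rt (j * N i)) = rt (j * N i) then 2 * ((c i : QB) * rt (j * N i))
            else 0 := by
        apply Finset.sum_congr rfl
        intro i _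
        split_ifs with h6
        · rw [h6]; ring
        · rcases sq_cases σ (j * N i) with h7 | h7
          · exact absurd h7 h6
          · rw [h7]; ring
      rw [h5, ← Finset.sum_filter, ← Finset.mul_sum] at h4
      rcases mul_eq_zero.mp h4 with h6 | h6
      · exact absurd h6 two_ne_zero
      · exact h6
    have h4 := ih I' hsub ((key I').mp ((sum_rt_zero_iff I' c (fun i => j * N i)).mp h3))
    have h5 : (I'.filter fun i => IsSquare (j * N i)) = I.filter fun i => IsSquare (j * N i) := by
      ext i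
      simp only [I', Finset.mem_filter]
      constructor
      · rintro ⟨⟨a, _⟩, b⟩
        exact ⟨a, b⟩
      · rintro ⟨a, b⟩
        refine ⟨⟨a, ?_⟩, b⟩
        obtain ⟨r, hr⟩ := b
        rw [hr, rt_of_sq, map_natCast]
    rw [h5] at h4
    exact h4

lemma isSquare_trans {a b c : ℕ} (hb : 0 < b) (h1 : IsSquare (a * b)) (h2 : IsSquare (b * c)) :
    IsSquare (a * c) := by
  have h3 : IsSquare (b ^ 2 * (a * c)) := by
    have := h1.mul h2
    have e : b ^ 2 * (a * c) = a * b * (b * c) := by ring
    rw [e]; exact this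
  rw [← Rat.isSquare_natCast_iff] at h3 ⊢
  obtain ⟨r, hr⟩ := h3
  refine ⟨r / b, ?_⟩
  have hb' : (b : ℚ) ≠ 0 := by exact_mod_cast hb.ne'
  push_cast at hr ⊢
  field_simp
  linarith

theorem total_zero (c : ι → ℤ) (N : ι → ℕ) (hN : ∀ i, 0 < N i) :
    ∀ I : Finset ι, (∀ l ∈ I, ∑ i ∈ I with IsSquare (N l * N i), (c i : ℝ) * Real.sqrt (N i) = 0) →
      ∑ i ∈ I, (c i : ℝ) * Real.sqrt (N i) = 0 := by
  classical
  intro I
  induction I using Finset.strongInduction with
  | H I ih =>
    intro h
    rcases I.eq_empty_or_nonempty with rfl | ⟨l, hl⟩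
    · simp
    have hlm : l ∈ I.filter (fun i => IsSquare (N l * N i)) := by
      rw [Finset.mem_filter]
      exact ⟨hl, ⟨N l, rfl⟩⟩
    have hsub : I.filter (fun i => ¬ IsSquare (N l * N i)) ⊂ I := by
      rw [Finset.filter_ssubset]
      exact ⟨l, hl, by simp⟩
    rw [← Finset.sum_filter_add_sum_filter_not I (fun i => IsSquare (N l * N i)), h l hl, zero_add]
    apply ih _ hsub
    intro m hm
    rw [Finset.mem_filter] at hm
    rw [Finset.filter_filter]
    rw [← h m hm.1]
    apply Finset.sum_congr _ (fun _ _ => rfl)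
    ext i
    simp only [Finset.mem_filter]
    constructor
    · rintro ⟨a, b, d⟩
      exact ⟨a, d⟩
    · rintro ⟨a, d⟩
      refine ⟨a, ?_, d⟩
      intro hb
      apply hm.2
      have h1 : IsSquare (N i * N m) := by rw [mul_comm]; exact d
      exact isSquare_trans (hN i) hb h1

end Sqrt

section Words

/-- Fermat numbers `2^(2^m)+1`. -/
abbrev F (m : ℕ) : ℕ := Nat.fermatNumber m

lemma F_pos (m : ℕ) : 0 < F m := by
  have := Nat.three_le_fermatNumber m
  change 0 < Nat.fermatNumber m
  omega

lemma F_not_square (m : ℕ) : ¬ IsSquare (F m) := by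
  rintro ⟨r, hr⟩
  cases m with
  | zero =>
    have h3 : r * r = 3 := by rw [← hr]; rfl
    have : r ≤ 1 ∨ 2 ≤ r := by omega
    rcases this with h | h
    · interval_cases r <;> omega
    · nlinarith
  | succ m =>
    have h1 : F (m + 1) = (F m - 1) ^ 2 + 1 := Nat.fermatNumber_succ m
    have h2 := Nat.three_le_fermatNumber m
    change 3 ≤ F m at h2
    obtain ⟨x, hx⟩ : ∃ x, F m - 1 = x + 1 := ⟨F m - 2, by omega⟩
    rw [h1, hx] at hr
    have h3 : x + 1 < r := by nlinarith
    have h4 : r < x + 2 := by nlinarith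
    omega

variable (h : ℕ → ℕ → Bool)

/-- the set semidecided by `h` -/
def SS : Set ℕ := {m | ∃ t, h m t = true}

/-- the natural number under the square root of a letter -/
def letN (l : ℕ) : ℕ :=
  Nat.casesOn l 1 (fun l => if h (Nat.unpair l).1 (Nat.unpair l).2 = true then
    F (Nat.unpair l).1 else 1)

/-- value of a letter: `0` is `-1`, and `l+1` is a square root -/
def letV (l : ℕ) : ℝ := if l = 0 then -1 else Real.sqrt (letN h l)

/-- radicand of a word -/
def wN (w : List ℕ) : ℕ := (w.map (letN h)).prod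

/-- parity of the number of letters `0` -/
def wS (w : List ℕ) : Bool := w.foldr (fun l b => if l = 0 then !b else b) false

/-- sign -/
def sgn (b : Bool) : ℤ := if b then -1 else 1

/-- value of a word -/
def wV (w : List ℕ) : ℝ := (w.map (letV h)).prod

/-- value of a list of words -/
def pV (P : List (List ℕ)) : ℝ := (P.map (wV h)).sum

lemma letN_pos (l : ℕ) : 0 < letN h l := by
  unfold letN
  cases l with
  | zero => simp
  | succ l =>
    simp only
    split_ifs
    · exact F_pos _
    · exact one_pos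

lemma wN_pos (w : List ℕ) : 0 < wN h w := by
  unfold wN
  induction w with
  | nil => simp
  | cons l w ih => simp only [List.map_cons, List.prod_cons]; exact Nat.mul_pos (letN_pos h l) ih

lemma wV_eq (w : List ℕ) : wV h w = (sgn (wS w) : ℝ) * Real.sqrt (wN h w) := by
  induction w with
  | nil => simp [wV, wS, wN, sgn]
  | cons l w ih =>
    have h1 : wV h (l :: w) = letV h l * wV h w := by simp [wV]
    have h2 : wN h (l :: w) = letN h l * wN h w := by simp [wN]
    have h3 : wS (l :: w) = if l = 0 then !(wS w) else wS w := rfl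
    rw [h1, h2, h3, ih, Nat.cast_mul, Real.sqrt_mul (Nat.cast_nonneg _)]
    by_cases hl : l = 0
    · subst hl
      have : letN h 0 = 1 := rfl
      rw [this]
      cases wS w <;> simp [letV, sgn]
    · simp only [letV, hl, if_false]
      ring

lemma wN_mem (m : ℕ) (hm : m ∉ SS h) (w : List ℕ) : Nat.Coprime (F m) (wN h w) := by
  unfold wN
  induction w with
  | nil => simp
  | cons l w ih =>
    simp only [List.map_cons, List.prod_cons]
    apply Nat.Coprime.mul_right _ ih
    unfold letN
    cases l with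
    | zero => simp
    | succ l =>
      simp only
      split_ifs with hh
      · apply Nat.coprime_fermatNumber_fermatNumber
        rintro rfl
        exact hm ⟨_, hh⟩
      · simp

lemma pV_eq (P : List (List ℕ)) :
    pV h P = ∑ i : Fin P.length, ((sgn (wS (P[i])) : ℤ) : ℝ) * Real.sqrt (wN h (P[i])) := by
  unfold pV
  rw [← Fin.sum_univ_getElem]
  apply Fintype.sum_equiv (finCongr (by simp))
  intro i
  simp [wV_eq]

theorem sqrt_F_notMem (m : ℕ) (hm : m ∉ SS h) (P Q : List (List ℕ))
    (hPQ : pV h P / pV h Q = Real.sqrt (F m)) : False := by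
  have hF : Real.sqrt (F m : ℝ) ≠ 0 := by
    rw [Real.sqrt_ne_zero']
    exact_mod_cast F_pos m
  have hQ : pV h Q ≠ 0 := by
    intro h0
    rw [h0, div_zero] at hPQ
    exact hF hPQ.symm
  rw [div_eq_iff hQ] at hPQ
  rw [pV_eq, pV_eq h Q, Finset.mul_sum] at hPQ
  let ι := Fin P.length ⊕ Fin Q.length
  let c : ι → ℤ := Sum.elim (fun i => sgn (wS (P[i]))) (fun i => - sgn (wS (Q[i])))
  let N : ι → ℕ := Sum.elim (fun i => wN h (P[i])) (fun i => wN h (Q[i]) * F m)
  have hN : ∀ i, 0 < N i := by
    rintro (i | i)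
    · exact wN_pos h _
    · exact Nat.mul_pos (wN_pos h _) (F_pos m)
  have htot : ∑ i : ι, (c i : ℝ) * Real.sqrt (N i) = 0 := by
    rw [Fintype.sum_sum_type]
    simp only [c, N, Sum.elim_inl, Sum.elim_inr]
    rw [hPQ, ← Finset.sum_add_distrib]
    apply Finset.sum_eq_zero
    intro i _
    rw [Nat.cast_mul, Real.sqrt_mul (Nat.cast_nonneg _)]
    push_cast
    ring
  apply hQ
  rw [pV_eq]
  apply total_zero (fun i : Fin Q.length => sgn (wS (Q[i]))) (fun i => wN h (Q[i]))
    (fun i => wN_pos h _)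
  intro l _
  have h1 := class_sum_zero c N (wN h (Q[l]) * F m) (Nat.mul_pos (wN_pos h _) (F_pos m)) hN
    Finset.univ htot
  rw [Finset.sum_filter, Fintype.sum_sum_type] at h1
  simp only [c, N, Sum.elim_inl, Sum.elim_inr] at h1
  have h2 : ∀ i : Fin P.length, ¬ IsSquare (wN h (Q[l]) * F m * wN h (P[i])) := by
    intro i hsq
    apply F_not_square m
    have hcop : Nat.Coprime (F m) (wN h (Q[l]) * wN h (P[i])) :=
      Nat.Coprime.mul_right (wN_mem h m hm _) (wN_mem h m hm _)
    have e : wN h (Q[l]) * F m * wN h (P[i]) = F m * (wN h (Q[l]) * wN h (P[i])) := by ring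
    rw [e] at hsq
    obtain ⟨r, hr⟩ := hsq
    obtain ⟨d, hd⟩ := exists_eq_pow_of_mul_eq_pow (a := F m) (c := r) (k := 2)
      (Nat.isUnit_iff.mpr hcop) (by rw [hr, sq])
    exact ⟨d, by rw [hd, sq]⟩
  have h3 : ∀ i : Fin Q.length, IsSquare (wN h (Q[l]) * F m * (wN h (Q[i]) * F m)) ↔
      IsSquare (wN h (Q[l]) * wN h (Q[i])) := by
    intro i
    have e : wN h (Q[l]) * F m * (wN h (Q[i]) * F m) = (wN h (Q[l]) * wN h (Q[i])) * (F m * F m) := by
      ring
    rw [e]
    constructor
    · intro hs
      have h4 := isSquare_trans (a := wN h (Q[l]) * wN h (Q[i])) (b := F m * F m) (c := 1)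
        (Nat.mul_pos (F_pos m) (F_pos m)) hs ⟨F m, by ring⟩
      simpa using h4
    · intro hs
      exact hs.mul ⟨F m, rfl⟩
  simp only [h2, if_false, Finset.sum_const_zero, zero_add, h3] at h1
  rw [Finset.sum_filter]
  have h5 : (∑ i : Fin Q.length, if IsSquare (wN h (Q[l]) * wN h (Q[i])) then
      (((- sgn (wS (Q[i])) : ℤ)) : ℝ) * Real.sqrt ((wN h (Q[i]) * F m : ℕ) : ℝ) else 0) =
      - Real.sqrt (F m) * ∑ i : Fin Q.length, if IsSquare (wN h (Q[l]) * wN h (Q[i])) then
      ((sgn (wS (Q[i])) : ℤ) : ℝ) * Real.sqrt (wN h (Q[i])) else 0 := by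
    rw [Finset.mul_sum]
    apply Finset.sum_congr rfl
    intro i _
    split_ifs
    · rw [Nat.cast_mul, Real.sqrt_mul (Nat.cast_nonneg _)]
      push_cast
      ring
    · ring
  rw [h5] at h1
  rcases mul_eq_zero.mp h1 with h6 | h6
  · exact absurd (neg_eq_zero.mp h6) hF
  · exact h6


/-- integer square root of a perfect square, `0` otherwise -/
def sqr (M : ℕ) : ℕ := if Nat.sqrt M * Nat.sqrt M = M then Nat.sqrt M else 0

/-- list of sign and radicand of the words -/
def trans (P : List (List ℕ)) : List (Bool × ℕ) := P.map fun w => (wS w, wN h w)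

/-- weighted count of the terms with sign `b` in the class of `j` -/
def cnt (b : Bool) (j : ℕ) (Q : List (Bool × ℕ)) : ℕ :=
  Q.foldr (fun t acc => (if t.1 = b then sqr (j * t.2) else 0) + acc) 0

/-- the zero test -/
def Zt (P : List (List ℕ)) : Prop :=
  ∀ t ∈ trans h P, cnt false t.2 (trans h P) = cnt true t.2 (trans h P)

lemma sqr_eq (a b : ℕ) : (if IsSquare (a * b) then Real.sqrt a * Real.sqrt b else 0) =
    (sqr (a * b) : ℝ) := by
  unfold sqr
  by_cases hs : IsSquare (a * b)
  · have h1 : Nat.sqrt (a * b) * Nat.sqrt (a * b) = a * b := by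
      obtain ⟨r, hr⟩ := hs
      rw [hr, Nat.sqrt_eq]
    rw [if_pos hs, if_pos h1, ← Real.sqrt_mul (Nat.cast_nonneg a), ← Nat.cast_mul]
    conv_lhs => rw [← h1]
    rw [Nat.cast_mul, Real.sqrt_mul_self (Nat.cast_nonneg _)]
  · rw [if_neg hs, if_neg (fun h1 => hs ⟨_, h1.symm⟩)]
    simp

lemma cnt_eq (j : ℕ) (P : List (List ℕ)) :
    (∑ i : Fin P.length, if IsSquare (j * wN h (P[i])) then
      ((sgn (wS (P[i])) : ℤ) : ℝ) * Real.sqrt (wN h (P[i])) else 0) * Real.sqrt j =
    (cnt false j (trans h P) : ℝ) - (cnt true j (trans h P) : ℝ) := by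
  have h1 : (∑ i : Fin P.length, if IsSquare (j * wN h (P[i])) then
      ((sgn (wS (P[i])) : ℤ) : ℝ) * Real.sqrt (wN h (P[i])) else 0) =
      (P.map fun w => if IsSquare (j * wN h w) then
      ((sgn (wS w) : ℤ) : ℝ) * Real.sqrt (wN h w) else 0).sum := by
    rw [← Fin.sum_univ_getElem]
    symm
    apply Fintype.sum_equiv (finCongr (by simp))
    intro i
    simp
  rw [h1]
  clear h1
  induction P with
  | nil => simp [cnt, trans]
  | cons w P ih =>
    have h2 : ∀ b, cnt b j (trans h (w :: P)) =
      (if wS w = b then sqr (j * wN h w) else 0) + cnt b j (trans h P) := fun b => rfl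
    rw [h2, h2, List.map_cons, List.sum_cons, add_mul, ih]
    have h3 := sqr_eq j (wN h w)
    have h4 : (if IsSquare (j * wN h w) then
      ((sgn (wS w) : ℤ) : ℝ) * Real.sqrt (wN h w) else 0) * Real.sqrt j =
      (sgn (wS w) : ℤ) * (sqr (j * wN h w) : ℝ) := by
      rw [← h3]
      split_ifs <;> ring
    rw [h4]
    cases wS w <;> simp [sgn] <;> ring

theorem Zt_iff (P : List (List ℕ)) : Zt h P ↔ pV h P = 0 := by
  have hclass : ∀ j : ℕ, 0 < j → ((∑ i : Fin P.length, if IsSquare (j * wN h (P[i])) then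
      ((sgn (wS (P[i])) : ℤ) : ℝ) * Real.sqrt (wN h (P[i])) else 0) = 0 ↔
      cnt false j (trans h P) = cnt true j (trans h P)) := by
    intro j hj
    have hjne : Real.sqrt (j : ℝ) ≠ 0 := by
      rw [Real.sqrt_ne_zero']
      exact_mod_cast hj
    have h1 := cnt_eq h j P
    constructor
    · intro h0
      rw [h0, zero_mul] at h1
      have h2 : (cnt false j (trans h P) : ℝ) = (cnt true j (trans h P) : ℝ) := by linarith
      exact_mod_cast h2
    · intro h0
      rw [h0, sub_self] at h1
      rcases mul_eq_zero.mp h1 with h2 | h2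
      · exact h2
      · exact absurd h2 hjne
  constructor
  · intro hz
    rw [pV_eq]
    apply total_zero (fun i : Fin P.length => sgn (wS (P[i]))) (fun i => wN h (P[i]))
      (fun i => wN_pos h _)
    intro l _
    rw [Finset.sum_filter, hclass _ (wN_pos h _)]
    exact hz (wS P[l], wN h P[l]) (List.mem_map.mpr ⟨P[l], List.getElem_mem _, rfl⟩)
  · intro h0 t ht
    unfold trans at ht
    rw [List.mem_map] at ht
    obtain ⟨w, _, rfl⟩ := ht
    rw [← hclass _ (wN_pos h _)]
    rw [pV_eq] at h0
    have := class_sum_zero (fun i : Fin P.length => sgn (wS (P[i]))) (fun i => wN h (P[i]))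
      (wN h w) (wN_pos h _) (fun i => wN_pos h _) Finset.univ h0
    rw [Finset.sum_filter] at this
    exact this

lemma primrec_F : Primrec F := by
  have h1 : Primrec (fun n : ℕ => Nat.rec (motive := fun _ => ℕ) 3
      (fun _ y => (y - 1) * (y - 1) + 1) n) := by
    apply Primrec.nat_rec₁
    have : Primrec (fun p : ℕ × ℕ => (p.2 - 1) * (p.2 - 1) + 1) := by
      have a : Primrec (fun p : ℕ × ℕ => p.2 - 1) :=
        Primrec.nat_sub.comp Primrec.snd (Primrec.const 1)
      exact Primrec.nat_add.comp (Primrec.nat_mul.comp a a) (Primrec.const 1)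
    exact this
  refine h1.of_eq ?_
  intro n
  induction n with
  | zero => rfl
  | succ n ih =>
    change (Nat.rec (motive := fun _ => ℕ) 3
      (fun _ y => (y - 1) * (y - 1) + 1) n - 1) * (Nat.rec (motive := fun _ => ℕ) 3
      (fun _ y => (y - 1) * (y - 1) + 1) n - 1) + 1 = F (n + 1)
    rw [ih]
    have : F (n + 1) = (F n - 1) ^ 2 + 1 := Nat.fermatNumber_succ n
    rw [this, sq]

lemma primrec_sqr : Primrec sqr := by
  unfold sqr
  apply Primrec.ite
  · exact Primrec.eq.comp (Primrec.nat_mul.comp Primrec.nat_sqrt Primrec.nat_sqrt) Primrec.id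
  · exact Primrec.nat_sqrt
  · exact Primrec.const 0

variable {h}

lemma primrec_letN (hh : Primrec₂ h) : Primrec (letN h) := by
  have h1 : Primrec₂ (fun (_ : ℕ) (l : ℕ) => if h (Nat.unpair l).1 (Nat.unpair l).2 = true then
      F (Nat.unpair l).1 else 1) := by
    have a : Primrec (fun p : ℕ × ℕ => (Nat.unpair p.2).1) :=
      Primrec.fst.comp (Primrec.unpair.comp Primrec.snd)
    have b : Primrec (fun p : ℕ × ℕ => (Nat.unpair p.2).2) :=
      Primrec.snd.comp (Primrec.unpair.comp Primrec.snd)
    apply Primrec.ite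
    · exact Primrec.eq.comp (hh.comp a b) (Primrec.const true)
    · exact primrec_F.comp a
    · exact Primrec.const 1
  exact (Primrec.nat_casesOn Primrec.id (Primrec.const 1) h1).of_eq fun l => rfl

lemma primrec_wN (hh : Primrec₂ h) : Primrec (wN h) := by
  have h1 : Primrec (fun w : List ℕ => w.foldr (fun l acc => letN h l * acc) 1) := by
    exact Primrec.list_foldr (f := fun w : List ℕ => w) (g := fun _ => 1)
      (h := fun _ p => letN h p.1 * p.2) Primrec.id (Primrec.const 1)
      ((Primrec.nat_mul.comp ((primrec_letN hh).comp (Primrec.fst.comp Primrec.snd))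
      (Primrec.snd.comp Primrec.snd)).to₂)
  refine h1.of_eq ?_
  intro w
  unfold wN
  induction w with
  | nil => rfl
  | cons l w ih => simp [ih]

lemma primrec_wS : Primrec wS := by
  unfold wS
  have : Primrec (fun p : List ℕ × (ℕ × Bool) => if p.2.1 = 0 then !p.2.2 else p.2.2) := by
    apply Primrec.ite
    · exact Primrec.eq.comp (Primrec.fst.comp Primrec.snd) (Primrec.const 0)
    · exact Primrec.not.comp (Primrec.snd.comp Primrec.snd)
    · exact Primrec.snd.comp Primrec.snd
  exact Primrec.list_foldr (f := fun w : List ℕ => w) (g := fun _ => false)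
      (h := fun _ p => if p.1 = 0 then !p.2 else p.2) Primrec.id (Primrec.const false) this.to₂

lemma primrec_trans (hh : Primrec₂ h) : Primrec (trans h) := by
  unfold trans
  apply Primrec.list_map Primrec.id
  exact (Primrec.pair (primrec_wS.comp Primrec.snd) ((primrec_wN hh).comp Primrec.snd)).to₂

lemma primrec_cnt (b : Bool) : Primrec₂ (cnt b) := by
  have : Primrec (fun p : ℕ × List (Bool × ℕ) => p.2.foldr
      (fun t acc => (if t.1 = b then sqr (p.1 * t.2) else 0) + acc) 0) := by
    have : Primrec (fun q : (ℕ × List (Bool × ℕ)) × ((Bool × ℕ) × ℕ) =>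
        (if q.2.1.1 = b then sqr (q.1.1 * q.2.1.2) else 0) + q.2.2) := by
      apply Primrec.nat_add.comp _ (Primrec.snd.comp Primrec.snd)
      apply Primrec.ite
      · exact Primrec.eq.comp (Primrec.fst.comp (Primrec.fst.comp Primrec.snd)) (Primrec.const b)
      · exact primrec_sqr.comp (Primrec.nat_mul.comp (Primrec.fst.comp Primrec.fst)
          (Primrec.snd.comp (Primrec.fst.comp Primrec.snd)))
      · exact Primrec.const 0
    exact Primrec.list_foldr (f := fun p : ℕ × List (Bool × ℕ) => p.2) (g := fun _ => 0)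
      (h := fun p t => (if t.1.1 = b then sqr (p.1 * t.1.2) else 0) + t.2)
      Primrec.snd (Primrec.const 0) this.to₂
  exact this.to₂

lemma primrec_Zt (hh : Primrec₂ h) : PrimrecPred (Zt h) := by
  have h1 : PrimrecRel (fun (t : Bool × ℕ) (Q : List (Bool × ℕ)) =>
      cnt false t.2 Q = cnt true t.2 Q) := by
    have e : Primrec (fun p : (Bool × ℕ) × List (Bool × ℕ) => p.1.2) :=
      Primrec.snd.comp Primrec.fst
    exact Primrec.eq.comp ((primrec_cnt false).comp e Primrec.snd)
      ((primrec_cnt true).comp e Primrec.snd)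
  have h2 := PrimrecRel.forall_mem_list h1
  exact h2.comp (primrec_trans hh) (primrec_trans hh)

end Words


section Pres

/-- A computable presentation of a field: natural numbers are codes of the elements, every element
has a code, equality of coded elements is decidable, and the field operations are computed on
codes by computable functions. -/
structure CompPres (k : Type*) [Field k] where
  val : ℕ → k
  surj : Function.Surjective val
  dec_eq : ComputablePred fun p : ℕ × ℕ => val p.1 = val p.2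
  add : ℕ → ℕ → ℕ
  add_comp : Computable₂ add
  val_add : ∀ a b, val (add a b) = val a + val b
  neg : ℕ → ℕ
  neg_comp : Computable neg
  val_neg : ∀ a, val (neg a) = - val a
  mul : ℕ → ℕ → ℕ
  mul_comp : Computable₂ mul
  val_mul : ∀ a b, val (mul a b) = val a * val b
  inv : ℕ → ℕ
  inv_comp : Computable inv
  val_inv : ∀ a, val (inv a) = (val a)⁻¹

variable {k : Type*} [Field k]

variable (k) in
/-- the generator number `i` of the free Lie algebra on `n` generators (and `0` if `i ≥ n`) -/
def gen (n i : ℕ) : FreeLieAlgebra k (Fin n) :=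
  if h : i < n then FreeLieAlgebra.of k ⟨i, h⟩ else 0

variable (k) in
/-- the iterated bracket `[x_i,[x_j,[...,x_l]]]` given by a list of indices -/
def mono (n : ℕ) : List ℕ → FreeLieAlgebra k (Fin n)
  | [] => 0
  | [i] => gen k n i
  | i :: j :: w => ⁅gen k n i, mono n (j :: w)⁆

/-- the element of the free Lie algebra coded by a list of pairs (code of coefficient, monomial) -/
def relator (C : CompPres k) (n : ℕ) (r : List (ℕ × List ℕ)) : FreeLieAlgebra k (Fin n) :=
  (r.map fun t => C.val t.1 • mono k n t.2).sum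

/-- The one-relator Lie algebra presented by `P = (number of generators, relator)`. -/
abbrev LieOf (C : CompPres k) (P : ℕ × List (ℕ × List ℕ)) : Type _ := OneRel (relator C P.1 P.2)

/-- Two one-relator presentations define isomorphic Lie algebras. -/
def Iso (C : CompPres k) (p : (ℕ × List (ℕ × List ℕ)) × (ℕ × List (ℕ × List ℕ))) : Prop :=
  Nonempty (LieOf C p.1 ≃ₗ⁅k⁆ LieOf C p.2)

/-- The isomorphism problem for one-relator Lie algebras over `k` is decidable. -/
def IsoDecidable (C : CompPres k) : Prop := ComputablePred (Iso C)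

lemma mono_cons (n i : ℕ) (w : List ℕ) (hw : w ≠ []) :
    mono k n (i :: w) = ⁅gen k n i, mono k n w⁆ := by
  cases w with
  | nil => exact absurd rfl hw
  | cons j w => rfl

lemma relator_append (C : CompPres k) (n : ℕ) (r s : List (ℕ × List ℕ)) :
    relator C n (r ++ s) = relator C n r + relator C n s := by
  simp [relator]

lemma relator_smul (C : CompPres k) (n : ℕ) (c : ℕ) (r : List (ℕ × List ℕ)) :
    relator C n (r.map fun t => (C.mul c t.1, t.2)) = C.val c • relator C n r := by
  induction r with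
  | nil => simp [relator]
  | cons t r ih =>
    have h1 : ∀ (t : ℕ × List ℕ) (r : List (ℕ × List ℕ)),
      relator C n (t :: r) = C.val t.1 • mono k n t.2 + relator C n r := fun t r => by simp [relator]
    rw [List.map_cons, h1, h1, ih, C.val_mul, smul_add, mul_smul]

/-- Every element of the free Lie algebra on `n` generators is the value of a code, so every
one-relator presentation is an input of the isomorphism problem. -/
theorem relator_surjective (C : CompPres k) (n : ℕ) (u : FreeLieAlgebra k (Fin n)) :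
    ∃ r, relator C n r = u := by
  obtain ⟨c1, hc1⟩ := C.surj 1
  let W : Submodule k (FreeLieAlgebra k (Fin n)) :=
    { carrier := {u | ∃ r, relator C n r = u}
      add_mem' := by
        rintro a b ⟨r, rfl⟩ ⟨s, rfl⟩
        exact ⟨r ++ s, relator_append C n r s⟩
      zero_mem' := ⟨[], rfl⟩
      smul_mem' := by
        rintro a b ⟨r, rfl⟩
        obtain ⟨c, rfl⟩ := C.surj a
        exact ⟨_, relator_smul C n c r⟩ }
  have hmono : ∀ w, mono k n w ∈ W := fun w => ⟨[(c1, w)], by simp [relator, hc1]⟩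
  have hgen : ∀ i : Fin n, gen k n i = FreeLieAlgebra.of k i := fun i => by simp [gen]
  have had : ∀ (i : Fin n) (v : FreeLieAlgebra k (Fin n)), v ∈ W →
      ⁅FreeLieAlgebra.of k i, v⁆ ∈ W := by
    rintro i v ⟨r, rfl⟩
    induction r with
    | nil => simp [relator]
    | cons t r ih =>
      have h1 : relator C n (t :: r) = C.val t.1 • mono k n t.2 + relator C n r := by simp [relator]
      rw [h1, lie_add, lie_smul]
      apply W.add_mem _ ih
      apply W.smul_mem
      by_cases hw : t.2 = []
      · rw [hw]; simp [mono]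
      · rw [← hgen, ← mono_cons n i t.2 hw]
        exact hmono _
  let T : LieSubalgebra k (FreeLieAlgebra k (Fin n)) :=
    { carrier := {u | ∀ v ∈ W, ⁅u, v⁆ ∈ W}
      add_mem' := by
        intro a b ha hb v hv
        rw [add_lie]
        exact W.add_mem (ha v hv) (hb v hv)
      zero_mem' := by
        intro v _
        rw [zero_lie]
        exact W.zero_mem
      smul_mem' := by
        intro c a ha v hv
        rw [smul_lie]
        exact W.smul_mem c (ha v hv)
      lie_mem' := by
        intro a b ha hb v hv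
        rw [lie_lie]
        exact W.sub_mem (ha _ (hb v hv)) (hb _ (ha v hv)) }
  have hT : ∀ u, u ∈ T := by
    intro u
    have := mem_of_gen T (LieHom.id : FreeLieAlgebra k (Fin n) →ₗ⁅k⁆ FreeLieAlgebra k (Fin n))
      (fun i v hv => had i v hv) u
    exact this
  let S : LieSubalgebra k (FreeLieAlgebra k (Fin n)) :=
    { W with
      lie_mem' := by
        intro a b _ hb
        exact hT a b hb }
  have hS := mem_of_gen S (LieHom.id : FreeLieAlgebra k (Fin n) →ₗ⁅k⁆ FreeLieAlgebra k (Fin n))
    (fun i => by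
      change FreeLieAlgebra.of k i ∈ W
      rw [← hgen]
      exact hmono [(i : ℕ)]) u
  exact hS

/-- the word `0 0 ... 0 1` with `n + 1` letters `0` -/
def powWord (n : ℕ) : List ℕ := ((List.range n).map fun _ => 0) ++ [0, 1]

lemma mono_powWord (n : ℕ) : mono k 2 (powWord n) =
    adPow (FreeLieAlgebra.of k 0) (FreeLieAlgebra.of k 1) (n + 1) := by
  have h0 : gen k 2 0 = FreeLieAlgebra.of k 0 := by simp [gen]
  have h1 : gen k 2 1 = FreeLieAlgebra.of k 1 := by simp [gen]
  have h2 : powWord n = List.replicate n 0 ++ [0, 1] := by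
    simp [powWord]
  rw [h2]
  induction n with
  | zero => simp [mono, adPow, h0, h1]
  | succ n ih =>
    have h3 : powWord n = List.replicate n 0 ++ [0, 1] := by
      simp [powWord]
    have h4 := ih h3
    have h5 : List.replicate (n + 1) 0 ++ [0, 1] = 0 :: (List.replicate n 0 ++ [0, 1]) := by
      rw [List.replicate_succ]; rfl
    rw [h5]
    obtain ⟨j, w, hjw⟩ : ∃ j w, List.replicate n 0 ++ [0, 1] = j :: w := by
      cases n with
      | zero => exact ⟨0, [1], rfl⟩
      | succ n => exact ⟨0, List.replicate n 0 ++ [0, 1], by rw [List.replicate_succ]; rfl⟩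
    rw [hjw] at h4 ⊢
    rw [mono, h4, h0]
    rfl

/-- code of the presentation `⟨x, y | ad(x)^(n+1) y = a y⟩`, where `i` is a code of `a` and `c` a
code of `1` -/
def powPres (C : CompPres k) (c : ℕ) (i n : ℕ) : ℕ × List (ℕ × List ℕ) :=
  (2, [(c, powWord n), (C.neg i, [1])])

lemma relator_powPres (C : CompPres k) (c : ℕ) (hc : C.val c = 1) (i n : ℕ) :
    relator C (powPres C c i n).1 (powPres C c i n).2 = powRel (n + 1) (C.val i) := by
  have h1 : gen k 2 1 = FreeLieAlgebra.of k 1 := by simp [gen]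
  change relator C 2 [(c, powWord n), (C.neg i, [1])] = _
  simp only [relator, List.map_cons, List.map_nil, List.sum_cons, List.sum_nil, mono_powWord,
    hc, C.val_neg, one_smul, add_zero, mono, h1, powRel, neg_smul, sub_eq_add_neg]

theorem iso_iff_pow (C : CompPres k) (c : ℕ) (hc : C.val c = 1) (i n : ℕ) (hi : C.val i ≠ 0) :
    Iso C (powPres C c i n, powPres C c c n) ↔ ∃ b : k, b ^ (n + 1) = C.val i := by
  unfold Iso LieOf
  simp only
  rw [relator_powPres C c hc i n, relator_powPres C c hc c n, hc]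
  constructor
  · rintro ⟨e⟩
    exact pow_of_iso n _ e
  · rintro ⟨b, hb⟩
    exact iso_of_pow (n + 1) _ b hi hb

lemma computable_powPres (C : CompPres k) (c : ℕ) :
    Computable fun p : ℕ × ℕ => powPres C c p.1 p.2 := by
  unfold powPres
  have h1 : Primrec powWord := by
    unfold powWord
    exact Primrec.list_append.comp (Primrec.list_map Primrec.list_range (Primrec.const 0).to₂)
      (Primrec.const [0, 1])
  have h2 : Computable fun p : ℕ × ℕ => ((c, powWord p.2) : ℕ × List ℕ) :=
    Computable.pair (Computable.const c) (h1.to_comp.comp Computable.snd)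
  have h3 : Computable fun p : ℕ × ℕ => ((C.neg p.1, [1]) : ℕ × List ℕ) :=
    Computable.pair (C.neg_comp.comp Computable.fst) (Computable.const [1])
  exact Computable.pair (Computable.const 2)
    (Computable.list_cons.comp h2 (Computable.list_cons.comp h3 (Computable.const [])))

lemma comp_pred {α β : Type*} [Primcodable α] [Primcodable β] {p : β → Prop}
    (hp : ComputablePred p) {f : α → β} (hf : Computable f) : ComputablePred fun a => p (f a) := by
  obtain ⟨d, hd⟩ := hp
  exact ⟨fun a => d (f a), hd.comp hf⟩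

lemma or_pred {α : Type*} [Primcodable α] {p q r : α → Prop}
    (hp : ComputablePred p) (hq : ComputablePred q) (h1 : ∀ a, p a → r a)
    (h2 : ∀ a, ¬ p a → (q a ↔ r a)) : ComputablePred r := by
  rw [ComputablePred.computable_iff] at hp hq ⊢
  obtain ⟨g4, h4, e4⟩ := hp
  obtain ⟨g5, h5, e5⟩ := hq
  refine ⟨fun p => cond (g4 p) true (g5 p), Computable.cond h4 (Computable.const true) h5, ?_⟩
  funext a
  have e4' := congrFun e4 a
  have e5' := congrFun e5 a
  by_cases h6 : p a
  · have h7 : g4 a = true := by rw [← e4']; exact h6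
    simp only [h7, cond_true, eq_iff_iff, iff_true]
    exact h1 a h6
  · have h8 : g4 a = false := by
      cases hg : g4 a with
      | false => rfl
      | true => exact absurd (by rw [e4']; exact hg) h6
    simp only [h8, cond_false]
    rw [← e5']
    exact propext (h2 a h6).symm

/-- If isomorphism of one-relator Lie algebras is decidable over `k`, then being a perfect
`(n+1)`-st power is decidable in `k`, uniformly in `n`. -/
theorem pow_decidable (C : CompPres k) (hiso : IsoDecidable C) :
    ComputablePred fun p : ℕ × ℕ => ∃ b : k, b ^ (p.2 + 1) = C.val p.1 := by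
  obtain ⟨c, hc⟩ := C.surj 1
  obtain ⟨z, hz⟩ := C.surj 0
  have e : Computable fun p : ℕ × ℕ => (c, p.2) :=
    Computable.pair (Computable.const c) Computable.snd
  have h3' := (computable_powPres C c).comp e
  have h3 : Computable fun p : ℕ × ℕ => (powPres C c p.1 p.2, powPres C c c p.2) :=
    Computable.pair (computable_powPres C c) h3'
  have h4 := comp_pred hiso h3
  have h5 := comp_pred C.dec_eq (Computable.pair (Computable.fst (α := ℕ) (β := ℕ))
    (Computable.const z))
  refine or_pred h5 h4 ?_ ?_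
  · intro p hp
    exact ⟨0, by rw [hp, hz]; simp⟩
  · intro p hp
    have h7 : C.val p.1 ≠ 0 := by rwa [← hz]
    exact iso_iff_pow C c hc p.1 p.2 h7

/-- code of a natural number -/
lemma exists_natCode (C : CompPres k) : ∃ f : ℕ → ℕ, Computable f ∧ ∀ n, C.val (f n) = (n : k) := by
  obtain ⟨c, hc⟩ := C.surj 1
  obtain ⟨z, hz⟩ := C.surj 0
  refine ⟨fun n => Nat.rec (motive := fun _ => ℕ) z (fun _ y => C.add y c) n, ?_, ?_⟩
  · exact Computable.nat_rec (f := fun n : ℕ => n) (g := fun _ => z)
      (h := fun _ p => C.add p.2 c) Computable.id (Computable.const z)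
      ((C.add_comp.comp (Computable.snd.comp Computable.snd) (Computable.const c)).to₂)
  · intro n
    induction n with
    | zero => simp [hz]
    | succ n ih =>
      change C.val (C.add _ c) = _
      rw [C.val_add, ih, hc]
      simp

end Pres

section TheField

variable (h : ℕ → ℕ → Bool)

/-- the real field generated by the square roots of the Fermat numbers with index in `SS h` -/
def KK : Subfield ℝ := Subfield.closure {x | ∃ m ∈ SS h, x = Real.sqrt (F m)}

lemma letV_mem (l : ℕ) : letV h l ∈ KK h := by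
  unfold letV letN
  cases l with
  | zero => simp [one_mem]
  | succ l =>
    simp only [Nat.succ_ne_zero, if_false]
    split_ifs with hh
    · exact Subfield.subset_closure ⟨_, ⟨_, hh⟩, rfl⟩
    · simp [one_mem]

lemma pV_mem (P : List (List ℕ)) : pV h P ∈ KK h := by
  unfold pV
  apply list_sum_mem
  intro x hx
  rw [List.mem_map] at hx
  obtain ⟨w, _, rfl⟩ := hx
  unfold wV
  apply list_prod_mem
  intro y hy
  rw [List.mem_map] at hy
  obtain ⟨l, _, rfl⟩ := hy
  exact letV_mem h l

/-- value of a pair of codes -/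
def fV (c : List (List ℕ) × List (List ℕ)) : KK h :=
  ⟨pV h c.1 / pV h c.2, div_mem (pV_mem h _) (pV_mem h _)⟩

lemma exists_pV {y : ℝ} (hy : y ∈ Subring.closure {x | ∃ m ∈ SS h, x = Real.sqrt (F m)}) :
    ∃ P, pV h P = y := by
  obtain ⟨L, hL, rfl⟩ := Subring.exists_list_of_mem_closure hy
  clear hy
  induction L with
  | nil => exact ⟨[], rfl⟩
  | cons t L ih =>
    obtain ⟨P, hP⟩ := ih (fun t ht => hL t (List.mem_cons_of_mem _ ht))
    have ht := hL t List.mem_cons_self
    have : ∃ w, wV h w = t.prod := by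
      clear hP ih hL
      induction t with
      | nil => exact ⟨[], rfl⟩
      | cons y t ih =>
        obtain ⟨w, hw⟩ := ih (fun y hy => ht y (List.mem_cons_of_mem _ hy))
        rcases ht y List.mem_cons_self with ⟨m, ⟨s, hs⟩, hm⟩ | hm
        · refine ⟨(Nat.pair m s + 1) :: w, ?_⟩
          rw [List.prod_cons, ← hw, hm]
          simp [wV, letV, letN, hs]
        · refine ⟨0 :: w, ?_⟩
          rw [List.prod_cons, ← hw, hm]
          simp [wV, letV]
    obtain ⟨w, hw⟩ := this
    refine ⟨w :: P, ?_⟩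
    simp [pV, hw] at hP ⊢
    exact hP

lemma fV_surj : Function.Surjective (fV h) := by
  rintro ⟨x, hx⟩
  unfold KK at hx
  rw [Subfield.mem_closure_iff] at hx
  obtain ⟨y, hy, z, hz, rfl⟩ := hx
  obtain ⟨P, rfl⟩ := exists_pV h hy
  obtain ⟨Q, rfl⟩ := exists_pV h hz
  exact ⟨(P, Q), rfl⟩

/-- product of two lists of words -/
def pmul (P Q : List (List ℕ)) : List (List ℕ) := P.flatMap fun w => Q.map fun w' => w ++ w'

/-- negative of a list of words -/
def pneg (P : List (List ℕ)) : List (List ℕ) := P.map fun w => 0 :: w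

lemma wV_append (w w' : List ℕ) : wV h (w ++ w') = wV h w * wV h w' := by simp [wV]

lemma pV_append (P Q : List (List ℕ)) : pV h (P ++ Q) = pV h P + pV h Q := by simp [pV]

lemma pV_pneg (P : List (List ℕ)) : pV h (pneg P) = - pV h P := by
  induction P with
  | nil => simp [pV, pneg]
  | cons w P ih =>
    have h1 : pneg (w :: P) = (0 :: w) :: pneg P := rfl
    have h2 : ∀ w P, pV h (w :: P) = wV h w + pV h P := fun w P => by simp [pV]
    rw [h1, h2, h2, ih]
    simp [wV, letV]
    ring

lemma pV_pmul (P Q : List (List ℕ)) : pV h (pmul P Q) = pV h P * pV h Q := by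
  induction P with
  | nil => simp [pV, pmul]
  | cons w P ih =>
    have h1 : pmul (w :: P) Q = (Q.map fun w' => w ++ w') ++ pmul P Q := rfl
    have h2 : ∀ w P, pV h (w :: P) = wV h w + pV h P := fun w P => by simp [pV]
    rw [h1, pV_append, ih, h2, add_mul]
    congr 1
    clear h1 ih h2
    induction Q with
    | nil => simp [pV]
    | cons w' Q ih =>
      have h2 : ∀ w P, pV h (w :: P) = wV h w + pV h P := fun w P => by simp [pV]
      rw [List.map_cons, h2, h2, ih, wV_append]
      ring

/-- sum on codes -/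
def cadd (c d : List (List ℕ) × List (List ℕ)) : List (List ℕ) × List (List ℕ) :=
  open Classical in
  if Zt h c.2 then d else if Zt h d.2 then c else
    (pmul c.1 d.2 ++ pmul d.1 c.2, pmul c.2 d.2)

/-- product on codes -/
def cmul (c d : List (List ℕ) × List (List ℕ)) : List (List ℕ) × List (List ℕ) :=
  (pmul c.1 d.1, pmul c.2 d.2)

/-- negative on codes -/
def cneg (c : List (List ℕ) × List (List ℕ)) : List (List ℕ) × List (List ℕ) :=
  (pneg c.1, c.2)

/-- inverse on codes -/
def cinv (c : List (List ℕ) × List (List ℕ)) : List (List ℕ) × List (List ℕ) :=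
  (c.2, c.1)

lemma fV_cadd (c d : List (List ℕ) × List (List ℕ)) : fV h (cadd h c d) = fV h c + fV h d := by
  apply Subtype.ext
  change pV h (cadd h c d).1 / pV h (cadd h c d).2 = pV h c.1 / pV h c.2 + pV h d.1 / pV h d.2
  unfold cadd
  split_ifs with h1 h2
  · rw [Zt_iff] at h1
    rw [h1, div_zero, zero_add]
  · rw [Zt_iff] at h2
    rw [h2, div_zero, add_zero]
  · rw [Zt_iff] at h1 h2
    simp only [pV_append, pV_pmul]
    rw [div_add_div _ _ h1 h2]
    ring

lemma fV_cmul (c d : List (List ℕ) × List (List ℕ)) : fV h (cmul c d) = fV h c * fV h d := by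
  apply Subtype.ext
  change pV h (cmul c d).1 / pV h (cmul c d).2 = pV h c.1 / pV h c.2 * (pV h d.1 / pV h d.2)
  unfold cmul
  simp only [pV_pmul]
  rw [div_mul_div_comm]

lemma fV_cneg (c : List (List ℕ) × List (List ℕ)) : fV h (cneg c) = - fV h c := by
  apply Subtype.ext
  change pV h (cneg c).1 / pV h (cneg c).2 = - (pV h c.1 / pV h c.2)
  unfold cneg
  simp only [pV_pneg, neg_div]

lemma fV_cinv (c : List (List ℕ) × List (List ℕ)) : fV h (cinv c) = (fV h c)⁻¹ := by
  apply Subtype.ext
  change pV h (cinv c).1 / pV h (cinv c).2 = (pV h c.1 / pV h c.2)⁻¹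
  unfold cinv
  rw [inv_div]

/-- equality test on codes -/
def ceq (p : (List (List ℕ) × List (List ℕ)) × (List (List ℕ) × List (List ℕ))) : Prop :=
  ((Zt h p.1.1 ∨ Zt h p.1.2) ∧ (Zt h p.2.1 ∨ Zt h p.2.2)) ∨
  ((¬ (Zt h p.1.1 ∨ Zt h p.1.2)) ∧ (¬ (Zt h p.2.1 ∨ Zt h p.2.2)) ∧
    Zt h (pmul p.1.1 p.2.2 ++ pneg (pmul p.2.1 p.1.2)))

lemma ceq_iff (p : (List (List ℕ) × List (List ℕ)) × (List (List ℕ) × List (List ℕ))) :
    ceq h p ↔ fV h p.1 = fV h p.2 := by
  rw [← Subtype.coe_inj]
  change _ ↔ pV h p.1.1 / pV h p.1.2 = pV h p.2.1 / pV h p.2.2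
  unfold ceq
  simp only [Zt_iff, pV_append, pV_pneg, pV_pmul]
  by_cases h1 : pV h p.1.1 = 0
  · rw [h1]
    simp only [true_or, true_and, not_true_eq_false, false_and, or_false, zero_div]
    rw [eq_comm (a := (0 : ℝ)), div_eq_zero_iff]
  by_cases h2 : pV h p.1.2 = 0
  · rw [h2]
    simp only [or_true, true_and, not_true_eq_false, false_and, or_false, div_zero]
    rw [eq_comm (a := (0 : ℝ)), div_eq_zero_iff]
  by_cases h3 : pV h p.2.1 = 0
  · rw [h3]
    simp [h1, h2]
  by_cases h4 : pV h p.2.2 = 0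
  · rw [h4]
    simp [h1, h2]
  simp only [h1, h2, h3, h4, or_self, false_and, not_false_eq_true, true_and, false_or]
  rw [div_eq_div_iff h2 h4]
  constructor
  · intro h5; linarith
  · intro h5; linarith

variable {h}

lemma primrec_pmul : Primrec₂ pmul := by
  unfold pmul
  have : Primrec fun p : List (List ℕ) × List (List ℕ) =>
      p.1.flatMap fun w => p.2.map fun w' => w ++ w' := by
    apply Primrec.list_flatMap Primrec.fst
    have : Primrec fun q : (List (List ℕ) × List (List ℕ)) × List ℕ =>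
        q.1.2.map fun w' => q.2 ++ w' := by
      apply Primrec.list_map (Primrec.snd.comp Primrec.fst)
      exact (Primrec.list_append.comp (Primrec.snd.comp Primrec.fst) Primrec.snd).to₂
    exact this.to₂
  exact this.to₂

lemma primrec_pneg : Primrec pneg := by
  unfold pneg
  apply Primrec.list_map Primrec.id
  exact (Primrec.list_cons.comp (Primrec.const 0) Primrec.snd).to₂

lemma primrec_cmul : Primrec₂ cmul := by
  unfold cmul
  exact (Primrec.pair (primrec_pmul.comp (Primrec.fst.comp Primrec.fst)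
    (Primrec.fst.comp Primrec.snd)) (primrec_pmul.comp (Primrec.snd.comp Primrec.fst)
    (Primrec.snd.comp Primrec.snd))).to₂

lemma primrec_cneg : Primrec cneg := by
  unfold cneg
  exact Primrec.pair (primrec_pneg.comp Primrec.fst) Primrec.snd

lemma primrec_cinv : Primrec cinv := by
  unfold cinv
  exact Primrec.pair Primrec.snd Primrec.fst

lemma primrec_cadd (hh : Primrec₂ h) : Primrec₂ (cadd h) := by
  classical
  have : Primrec fun p : (List (List ℕ) × List (List ℕ)) × (List (List ℕ) × List (List ℕ)) =>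
      if Zt h p.1.2 then p.2 else if Zt h p.2.2 then p.1 else
    (pmul p.1.1 p.2.2 ++ pmul p.2.1 p.1.2, pmul p.1.2 p.2.2) := by
    apply Primrec.ite ((primrec_Zt hh).comp (Primrec.snd.comp Primrec.fst)) Primrec.snd
    apply Primrec.ite ((primrec_Zt hh).comp (Primrec.snd.comp Primrec.snd)) Primrec.fst
    apply Primrec.pair
    · exact Primrec.list_append.comp (primrec_pmul.comp (Primrec.fst.comp Primrec.fst)
        (Primrec.snd.comp Primrec.snd)) (primrec_pmul.comp (Primrec.fst.comp Primrec.snd)
        (Primrec.snd.comp Primrec.fst))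
    · exact primrec_pmul.comp (Primrec.snd.comp Primrec.fst) (Primrec.snd.comp Primrec.snd)
  have h2 : Primrec fun p : (List (List ℕ) × List (List ℕ)) × (List (List ℕ) × List (List ℕ)) =>
      cadd h p.1 p.2 := this.of_eq (fun p => by unfold cadd; congr)
  exact h2.to₂

lemma primrec_ceq (hh : Primrec₂ h) : PrimrecPred (ceq h) := by
  unfold ceq
  have z := primrec_Zt hh
  have a1 := z.comp (Primrec.fst.comp (Primrec.fst (α := List (List ℕ) × List (List ℕ))
    (β := List (List ℕ) × List (List ℕ))))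
  have a2 := z.comp (Primrec.snd.comp (Primrec.fst (α := List (List ℕ) × List (List ℕ))
    (β := List (List ℕ) × List (List ℕ))))
  have b1 := z.comp (Primrec.fst.comp (Primrec.snd (α := List (List ℕ) × List (List ℕ))
    (β := List (List ℕ) × List (List ℕ))))
  have b2 := z.comp (Primrec.snd.comp (Primrec.snd (α := List (List ℕ) × List (List ℕ))
    (β := List (List ℕ) × List (List ℕ))))
  have c := z.comp (Primrec.list_append.comp (primrec_pmul.comp
    (Primrec.fst.comp (Primrec.fst (α := List (List ℕ) × List (List ℕ))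
      (β := List (List ℕ) × List (List ℕ))))
    (Primrec.snd.comp Primrec.snd)) (primrec_pneg.comp (primrec_pmul.comp
    (Primrec.fst.comp (Primrec.snd (α := List (List ℕ) × List (List ℕ))
      (β := List (List ℕ) × List (List ℕ))))
    (Primrec.snd.comp Primrec.fst))))
  exact ((a1.or a2).and (b1.or b2)).or ((a1.or a2).not.and ((b1.or b2).not.and c))

/-- decoding natural numbers -/
def dcd (n : ℕ) : List (List ℕ) × List (List ℕ) := (Encodable.decode n).getD ([], [])

lemma primrec_dcd : Primrec dcd := by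
  unfold dcd
  exact Primrec.option_getD.comp Primrec.decode (Primrec.const ([], []))

lemma dcd_encode (c : List (List ℕ) × List (List ℕ)) : dcd (Encodable.encode c) = c := by
  unfold dcd
  rw [Encodable.encodek]
  rfl

/-- the computable presentation of the field -/
def pres (hh : Primrec₂ h) : CompPres (KK h) where
  val n := fV h (dcd n)
  surj x := by
    obtain ⟨c, hc⟩ := fV_surj h x
    exact ⟨Encodable.encode c, by
      change fV h (dcd (Encodable.encode c)) = x
      rw [dcd_encode]; exact hc⟩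
  dec_eq := by
    have := (primrec_ceq hh).comp (Primrec.pair (primrec_dcd.comp (Primrec.fst (α := ℕ) (β := ℕ)))
      (primrec_dcd.comp Primrec.snd))
    exact this.computablePred.of_eq fun p => ceq_iff h _
  add a b := Encodable.encode (cadd h (dcd a) (dcd b))
  add_comp := (Primrec.encode.comp ((primrec_cadd hh).comp (primrec_dcd.comp Primrec.fst)
    (primrec_dcd.comp Primrec.snd))).to_comp.to₂
  val_add a b := by rw [dcd_encode, fV_cadd]
  neg a := Encodable.encode (cneg (dcd a))
  neg_comp := (Primrec.encode.comp (primrec_cneg.comp primrec_dcd)).to_comp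
  val_neg a := by rw [dcd_encode, fV_cneg]
  mul a b := Encodable.encode (cmul (dcd a) (dcd b))
  mul_comp := (Primrec.encode.comp (primrec_cmul.comp (primrec_dcd.comp Primrec.fst)
    (primrec_dcd.comp Primrec.snd))).to_comp.to₂
  val_mul a b := by rw [dcd_encode, fV_cmul]
  inv a := Encodable.encode (cinv (dcd a))
  inv_comp := (Primrec.encode.comp (primrec_cinv.comp primrec_dcd)).to_comp
  val_inv a := by rw [dcd_encode, fV_cinv]

lemma square_iff (m : ℕ) : (∃ b : KK h, b ^ 2 = ((F m : ℕ) : KK h)) ↔ m ∈ SS h := by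
  constructor
  · rintro ⟨b, hb⟩
    by_contra hm
    have h1 : (b : ℝ) ^ 2 = (F m : ℝ) := by
      have := congrArg (fun x : KK h => (x : ℝ)) hb
      simpa using this
    have h2 : Real.sqrt (F m) = |(b : ℝ)| := by
      rw [← h1, Real.sqrt_sq_eq_abs]
    have h3 : Real.sqrt (F m) ∈ KK h := by
      rw [h2]
      rcases abs_choice (b : ℝ) with h4 | h4
      · rw [h4]; exact b.2
      · rw [h4]; exact neg_mem b.2
    obtain ⟨c, hc⟩ := fV_surj h ⟨_, h3⟩
    have h5 := congrArg (fun x : KK h => (x : ℝ)) hc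
    exact sqrt_F_notMem h m hm c.1 c.2 h5
  · intro hm
    refine ⟨⟨Real.sqrt (F m), Subfield.subset_closure ⟨m, hm, rfl⟩⟩, ?_⟩
    apply Subtype.ext
    simp [Real.sq_sqrt (Nat.cast_nonneg (F m))]

theorem computable_of_iso (C : CompPres (KK h)) (hiso : IsoDecidable C) :
    ComputablePred fun m : ℕ => m ∈ SS h := by
  obtain ⟨f, hf, hf2⟩ := exists_natCode C
  obtain ⟨d, hd⟩ := pow_decidable C hiso
  have h1 : Computable fun m : ℕ => (f (F m), 1) :=
    Computable.pair (hf.comp primrec_F.to_comp) (Computable.const 1)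
  have h2 : ComputablePred fun m : ℕ => ∃ b : KK h, b ^ (1 + 1) = C.val (f (F m)) :=
    ⟨fun m => d (f (F m), 1), hd.comp h1⟩
  refine h2.of_eq ?_
  intro m
  rw [hf2]
  exact square_iff m

end TheField

open Nat.Partrec (Code)

/-- The halting set: the numbers of the programs that halt on input `0`. -/
def Halt : Set ℕ := {m | (Code.eval (Denumerable.ofNat Code m) 0).Dom}

/-- The field `ℚ(√(2^(2^m)+1) : m ∈ Halt)`, a subfield of `ℝ`. -/
def K₀ : Subfield ℝ := Subfield.closure {x | ∃ m ∈ Halt, x = Real.sqrt ((2 ^ (2 ^ m) + 1 : ℕ) : ℝ)}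

/-- bounded halting -/
def hb (m t : ℕ) : Bool := (Code.evaln t (Denumerable.ofNat Code m) 0).isSome

lemma primrec_hb : Primrec₂ hb := by
  unfold hb
  have h1 : Primrec fun p : ℕ × ℕ => ((p.2, Denumerable.ofNat Code p.1), 0) :=
    Primrec.pair (Primrec.pair Primrec.snd ((Primrec.ofNat Code).comp Primrec.fst))
      (Primrec.const 0)
  exact (Primrec.option_isSome.comp (Code.primrec_evaln.comp h1)).to₂

lemma SS_hb : SS hb = Halt := by
  ext m
  unfold SS Halt hb
  simp only [Set.mem_ofPred_eq, Option.isSome_iff_exists, Part.dom_iff_mem]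
  constructor
  · rintro ⟨t, x, hx⟩
    exact ⟨x, Code.evaln_sound hx⟩
  · rintro ⟨x, hx⟩
    obtain ⟨t, ht⟩ := Code.evaln_complete.mp hx
    exact ⟨t, x, ht⟩

lemma K₀_eq : K₀ = KK hb := by
  unfold K₀ KK
  rw [SS_hb]
  rfl

lemma halt_not_computable : ¬ ComputablePred fun m : ℕ => m ∈ Halt := by
  intro hc
  apply ComputablePred.halting_problem 0
  obtain ⟨d, hd⟩ := hc
  have h1 : Computable fun c : Code => decide ((Encodable.encode c) ∈ Halt) :=
    hd.comp Computable.encode
  have h2 : ComputablePred fun c : Code => Encodable.encode c ∈ Halt := ⟨fun c => d _, h1⟩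
  refine h2.of_eq ?_
  intro c
  simp [Halt]

/-- The isomorphism problem for Lie algebras with one defining relation is undecidable over the
computable real algebraic field `K₀`. -/
theorem result :
    (∀ x ∈ K₀, IsAlgebraic ℚ x) ∧ Nonempty (CompPres K₀) ∧
      (∀ C : CompPres K₀, ¬ IsoDecidable C) ∧
      ∀ (k : Type) [Field k] (C : CompPres k), IsoDecidable C →
        ComputablePred fun p : ℕ × ℕ => ∃ b : k, b ^ (p.2 + 1) = C.val p.1 := by
  refine ⟨?_, ?_, ?_, fun k _ C hC => pow_decidable C hC⟩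
  · intro x hx
    have h1 : K₀ ≤ (algebraicClosure ℚ ℝ).toSubfield := by
      unfold K₀
      rw [Subfield.closure_le]
      rintro x ⟨m, _, rfl⟩
      change _ ∈ algebraicClosure ℚ ℝ
      rw [mem_algebraicClosure_iff]
      refine IsAlgebraic.of_pow (n := 2) (by norm_num) ?_
      rw [Real.sq_sqrt (Nat.cast_nonneg _)]
      have := isAlgebraic_algebraMap (R := ℚ) (A := ℝ) (((2 ^ (2 ^ m) + 1 : ℕ) : ℚ))
      simpa using this
    have h2 := h1 hx
    change x ∈ algebraicClosure ℚ ℝ at h2
    rwa [mem_algebraicClosure_iff] at h2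
  · rw [K₀_eq]
    exact ⟨pres primrec_hb⟩
  · rw [K₀_eq]
    intro C hC
    apply halt_not_computable
    rw [← SS_hb]
    exact computable_of_iso C hC

end Pool.Agent.Results.MP_045576_al.IsoUndecidable
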